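import Pool.Agent.Helper6.NX.GoalsC
import Pool.Agent.Helper64.AK.OP
import Pool.Agent.Helper60.AK.LZ

/-! Packet NX-D: return probabilities on tuples from the entropy of nearly invariant laws. -/

namespace Pool.Agent.Helper22.NX

open Equiv Filter Topology
open Pool.Agent.Helper3.AK (lazyLaw Fn ip Act Avg Wk Lz Act_apply Avg_apply Alt)
open Pool.Agent.Helper64.AK
open Pool.Agent.Helper6.NX

variable {n r k : ℕ}

theorem law_id {Ω : Type} [Fintype Ω] (q : Ω → ℝ) (a : Ω) : law q (fun g => g) a = q a := by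
  classical
  unfold law
  rw [Finset.sum_eq_single a]
  · simp
  · intro b _ hb
    rw [if_neg hb]
  · intro h
    exact absurd (Finset.mem_univ a) h

theorem H_eq {Ω : Type} [Fintype Ω] (q : Ω → ℝ) : H q = -∑ a, q a * Real.log (q a) := by
  unfold H ent
  congr 1
  refine Finset.sum_congr rfl fun a _ => ?_
  rw [law_id]

/-- the entropy of the normalized square of a probability weight -/
theorem H_sq_le {Ω : Type} [Fintype Ω] (u : Ω → ℝ) (h0 : ∀ a, 0 ≤ u a) (h1 : ∑ a, u a = 1)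
    (N : ℝ) (hN : N = ∑ a, u a ^ 2) (hNp : 0 < N) :
    H (fun a => u a ^ 2 / N) ≤ -Real.log N := by
  rw [H_eq]
  have hq1 : ∑ a, u a ^ 2 / N = 1 := by
    rw [← Finset.sum_div, ← hN, div_self hNp.ne']
  have key : ∀ a, -(u a ^ 2 / N * Real.log (u a ^ 2 / N)) ≤
      (u a - u a ^ 2 / N) * 2 - (u a ^ 2 / N) * Real.log N := by
    intro a
    rcases (h0 a).eq_or_lt with h | h
    · rw [← h]
      simp
    · have hq : 0 < u a ^ 2 / N := by positivity
      have hlog : Real.log (u a ^ 2 / N) = 2 * Real.log (u a) - Real.log N := by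
        rw [Real.log_div (by positivity) hNp.ne', Real.log_pow]
        push_cast
        ring
      have h2 : Real.log (N / u a) ≤ N / u a - 1 := Real.log_le_sub_one_of_pos (by positivity)
      rw [Real.log_div hNp.ne' h.ne'] at h2
      have h3 : u a ^ 2 / N * (Real.log N - Real.log (u a)) ≤ u a ^ 2 / N * (N / u a - 1) :=
        mul_le_mul_of_nonneg_left h2 hq.le
      have h4 : u a ^ 2 / N * (N / u a - 1) = u a - u a ^ 2 / N := by
        field_simp
      rw [h4] at h3
      rw [hlog]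
      nlinarith
  have hs := Finset.sum_le_sum (s := Finset.univ) fun a _ => key a
  rw [Finset.sum_sub_distrib, ← Finset.sum_mul, ← Finset.sum_mul,
    Finset.sum_sub_distrib, h1, hq1, Finset.sum_neg_distrib] at hs
  linarith

theorem sum_Act (g : Perm (Fin n)) (φ : Fn n r) : ∑ a, Act g φ a = ∑ a, φ a :=
  Fintype.sum_equiv (tr g) _ _ fun _ => rfl

theorem sum_Wk (hk : 1 ≤ k) (z : Fin k → Alt n) (φ : Fn n r) : ∑ a, Wk z φ a = ∑ a, φ a := by
  have hk0 : (k : ℝ) ≠ 0 := by
    have : k ≠ 0 := by omega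
    exact_mod_cast this
  rw [Wk_apply']
  simp only [Pi.smul_apply, Finset.sum_apply, Pi.add_apply, smul_eq_mul]
  rw [← Finset.mul_sum, Finset.sum_comm]
  simp only [Finset.sum_add_distrib, sum_Act]
  rw [Finset.sum_const, Finset.card_univ, Fintype.card_fin, nsmul_eq_mul]
  field_simp
  ring

theorem sum_Lz (hk : 1 ≤ k) (z : Fin k → Alt n) (φ : Fn n r) : ∑ a, Lz z φ a = ∑ a, φ a := by
  rw [Lz_apply]
  simp only [Pi.smul_apply, Pi.add_apply, smul_eq_mul]
  rw [← Finset.mul_sum, Finset.sum_add_distrib, sum_Wk hk]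
  ring

theorem Lz_nonneg (z : Fin k → Alt n) (φ : Fn n r) (h : ∀ a, 0 ≤ φ a) : ∀ a, 0 ≤ Lz z φ a := by
  intro a
  rw [Lz_apply, Wk_apply']
  simp only [Pi.smul_apply, Finset.sum_apply, Pi.add_apply, smul_eq_mul]
  have h1 : 0 ≤ ∑ i, (Act (z i : Perm (Fin n)) φ a + Act ((z i : Perm (Fin n))⁻¹) φ a) :=
    Finset.sum_nonneg fun i _ => add_nonneg (h _) (h _)
  have h2 := h a
  positivity

theorem ip_Wk_Wk_le (hk : 1 ≤ k) (z : Fin k → Alt n) (φ : Fn n r) :
    ip (Wk z φ) (Wk z φ) ≤ ip φ φ := by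
  have hk0 : (0 : ℝ) < k := by exact_mod_cast hk
  have hpt : ∀ a, Wk z φ a * Wk z φ a ≤ (2 * (k : ℝ))⁻¹ *
      ∑ i, (Act (z i : Perm (Fin n)) φ a ^ 2 + Act ((z i : Perm (Fin n))⁻¹) φ a ^ 2) := by
    intro a
    rw [Wk_apply']
    simp only [Pi.smul_apply, Finset.sum_apply, Pi.add_apply, smul_eq_mul]
    set c : Fin k → ℝ := fun i => Act (z i : Perm (Fin n)) φ a + Act ((z i : Perm (Fin n))⁻¹) φ a
      with hc
    have h1 : (∑ i, c i) ^ 2 ≤ (k : ℝ) * ∑ i, c i ^ 2 := by
      have := sq_sum_le_card_mul_sum_sq (s := (Finset.univ : Finset (Fin k))) (f := c)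
      simpa using this
    have h2 : ∑ i, c i ^ 2 ≤ ∑ i, 2 * (Act (z i : Perm (Fin n)) φ a ^ 2 +
        Act ((z i : Perm (Fin n))⁻¹) φ a ^ 2) := by
      refine Finset.sum_le_sum fun i _ => ?_
      rw [hc]
      nlinarith [sq_nonneg (Act (z i : Perm (Fin n)) φ a - Act ((z i : Perm (Fin n))⁻¹) φ a)]
    rw [← Finset.mul_sum] at h2
    have h3 : (∑ i, c i) ^ 2 ≤ (k : ℝ) * (2 * ∑ i, (Act (z i : Perm (Fin n)) φ a ^ 2 +
        Act ((z i : Perm (Fin n))⁻¹) φ a ^ 2)) :=
      h1.trans (mul_le_mul_of_nonneg_left h2 hk0.le)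
    calc (2 * (k : ℝ))⁻¹ * (∑ i, c i) * ((2 * (k : ℝ))⁻¹ * ∑ i, c i)
        = ((2 * (k : ℝ))⁻¹) ^ 2 * (∑ i, c i) ^ 2 := by ring
      _ ≤ ((2 * (k : ℝ))⁻¹) ^ 2 * ((k : ℝ) * (2 * ∑ i, (Act (z i : Perm (Fin n)) φ a ^ 2 +
        Act ((z i : Perm (Fin n))⁻¹) φ a ^ 2))) := mul_le_mul_of_nonneg_left h3 (by positivity)
      _ = _ := by
        field_simp
  have hA : ∀ g : Perm (Fin n), ∑ a, Act g φ a ^ 2 = ip φ φ := by
    intro g
    have := ip_Act_Act g φ φ
    rw [← this]
    unfold ip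
    exact Finset.sum_congr rfl fun a _ => by ring
  calc ip (Wk z φ) (Wk z φ) = ∑ a, Wk z φ a * Wk z φ a := rfl
    _ ≤ ∑ a, (2 * (k : ℝ))⁻¹ *
      ∑ i, (Act (z i : Perm (Fin n)) φ a ^ 2 + Act ((z i : Perm (Fin n))⁻¹) φ a ^ 2) :=
        Finset.sum_le_sum fun a _ => hpt a
    _ = (2 * (k : ℝ))⁻¹ * ∑ _i : Fin k, (ip φ φ + ip φ φ) := by
        rw [← Finset.mul_sum, Finset.sum_comm]
        congr 1
        refine Finset.sum_congr rfl fun i _ => ?_
        rw [Finset.sum_add_distrib, hA, hA]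
    _ = ip φ φ := by
        rw [Finset.sum_const, Finset.card_univ, Fintype.card_fin, nsmul_eq_mul]
        field_simp
        ring

theorem ip_Lz_Lz_le (hk : 1 ≤ k) (z : Fin k → Alt n) (φ : Fn n r) :
    ip (Lz z φ) (Lz z φ) ≤ ip (Lz z φ) φ := by
  have h1 := ip_Wk_Wk_le hk z φ
  rw [ip_Lz z φ (Lz z φ), ip_Lz z φ φ, Lz_apply, ip_smul_right, ip_smul_right, ip_add_right,
    ip_add_right, ip_comm φ (Wk z φ)]
  linarith

/-- the Dirichlet form of one generator -/
noncomputable def DF (g : Perm (Fin n)) (φ : Fn n r) : ℝ := ∑ b, (Act g φ b - φ b) ^ 2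

theorem DF_nonneg (g : Perm (Fin n)) (φ : Fn n r) : 0 ≤ DF g φ :=
  Finset.sum_nonneg fun _ _ => sq_nonneg _

theorem DF_eq (g : Perm (Fin n)) (φ : Fn n r) : DF g φ = 2 * (ip φ φ - ip (Act g φ) φ) := by
  have h : DF g φ = ip (Act g φ - φ) (Act g φ - φ) := by
    unfold DF ip
    exact Finset.sum_congr rfl fun a _ => by rw [Pi.sub_apply]; ring
  rw [h, ip_sub_left, ip_sub_right, ip_sub_right, ip_Act_Act, ip_comm φ (Act g φ)]
  ring

theorem DF_inv (g : Perm (Fin n)) (φ : Fn n r) : DF g⁻¹ φ = DF g φ := by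
  rw [DF_eq, DF_eq, ip_Act_inv_self]

theorem ip_Lz_le (hk : 1 ≤ k) (z : Fin k → Alt n) (φ : Fn n r) (i : Fin k) :
    ip (Lz z φ) φ ≤ ip φ φ - DF (z i : Perm (Fin n)) φ / (4 * k) := by
  have hk0 : (0 : ℝ) < k := by exact_mod_cast hk
  have h1 : ∀ j, ip (Act (z j : Perm (Fin n)) φ) φ = ip φ φ - DF (z j : Perm (Fin n)) φ / 2 := by
    intro j
    rw [DF_eq]
    ring
  have h2 : ip (Wk z φ) φ = ip φ φ - (k : ℝ)⁻¹ * ∑ j, DF (z j : Perm (Fin n)) φ / 2 := by
    rw [ip_Wk_self]
    simp only [h1]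
    rw [Finset.sum_sub_distrib, Finset.sum_const, Finset.card_univ, Fintype.card_fin, nsmul_eq_mul,
      mul_sub, inv_mul_cancel_left₀ hk0.ne']
  have h3 : DF (z i : Perm (Fin n)) φ / 2 ≤ ∑ j, DF (z j : Perm (Fin n)) φ / 2 :=
    Finset.single_le_sum (f := fun j => DF (z j : Perm (Fin n)) φ / 2)
      (fun j _ => div_nonneg (DF_nonneg _ _) zero_le_two) (Finset.mem_univ i)
  rw [ip_Lz, h2]
  have h4 : (k : ℝ)⁻¹ * (DF (z i : Perm (Fin n)) φ / 2) ≤
      (k : ℝ)⁻¹ * ∑ j, DF (z j : Perm (Fin n)) φ / 2 :=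
    mul_le_mul_of_nonneg_left h3 (by positivity)
  have h5 : DF (z i : Perm (Fin n)) φ / (4 * k) =
      (1 / 2) * ((k : ℝ)⁻¹ * (DF (z i : Perm (Fin n)) φ / 2)) := by
    field_simp
    ring
  rw [h5]
  linarith

/-- one step -/
theorem step (hk : 1 ≤ k) (x : Fin k → Alt n) (ε' Λ : ℝ) (hε : 0 < ε')
    (hq : ∀ q : (Fin r ↪ Fin n) → ℝ, IsLaw q → NIT x q ε' → Λ ≤ H q)
    (u : Fn n r) (h0 : ∀ a, 0 ≤ u a) (h1 : ∑ a, u a = 1)
    (hbig : Real.exp (-Λ) < ip u u) :
    ip (Lz x u) (Lz x u) ≤ (1 - ε' ^ 2 / (16 * k)) * ip u u := by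
  have hk0 : (0 : ℝ) < k := by exact_mod_cast hk
  set N := ip u u with hNdef
  have hN : N = ∑ a, u a ^ 2 := by
    rw [hNdef]
    unfold ip
    exact Finset.sum_congr rfl fun a _ => by ring
  have hNp : 0 < N := (Real.exp_pos _).trans hbig
  have hH := H_sq_le u h0 h1 N hN hNp
  have hlog : -Real.log N < Λ := by
    have := (Real.lt_log_iff_exp_lt hNp).2 hbig
    linarith
  have hlaw : IsLaw (fun a => u a ^ 2 / N) := by
    refine ⟨fun a => by positivity, ?_⟩
    rw [← Finset.sum_div, ← hN, div_self hNp.ne']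
  have hnot : ¬ NIT x (fun a => u a ^ 2 / N) ε' := by
    intro h
    have := hq _ hlaw h
    linarith
  unfold NIT at hnot
  push Not at hnot
  obtain ⟨i, hi⟩ := hnot
  have hCS : (∑ b, |u (b.trans (((x i : Perm (Fin n))⁻¹ : Perm (Fin n)).toEmbedding)) ^ 2
      - u b ^ 2|) ^ 2 ≤ DF (x i : Perm (Fin n)) u * (4 * N) := by
    rw [← DF_inv]
    have h2 : ∀ b, |u (b.trans (((x i : Perm (Fin n))⁻¹ : Perm (Fin n)).toEmbedding)) ^ 2
      - u b ^ 2| = |Act ((x i : Perm (Fin n))⁻¹) u b - u b| *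
        (Act ((x i : Perm (Fin n))⁻¹) u b + u b) := by
      intro b
      rw [Act_apply]
      have h3 : 0 ≤ u (b.trans (((x i : Perm (Fin n))⁻¹ : Perm (Fin n)).toEmbedding)) + u b :=
        add_nonneg (h0 _) (h0 _)
      rw [← abs_of_nonneg h3, ← abs_mul]
      congr 1
      ring
    simp only [h2]
    refine (Finset.sum_mul_sq_le_sq_mul_sq _ _ _).trans ?_
    have h4 : ∑ b, |Act ((x i : Perm (Fin n))⁻¹) u b - u b| ^ 2 =
        DF ((x i : Perm (Fin n))⁻¹) u := by
      unfold DF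
      exact Finset.sum_congr rfl fun b _ => sq_abs _
    rw [h4]
    refine mul_le_mul_of_nonneg_left ?_ (DF_nonneg _ _)
    have h5 : ∑ b, (Act ((x i : Perm (Fin n))⁻¹) u b + u b) ^ 2 ≤
        ∑ b, (2 * Act ((x i : Perm (Fin n))⁻¹) u b ^ 2 + 2 * u b ^ 2) :=
      Finset.sum_le_sum fun b _ => by
        nlinarith [sq_nonneg (Act ((x i : Perm (Fin n))⁻¹) u b - u b)]
    refine h5.trans ?_
    rw [Finset.sum_add_distrib, ← Finset.mul_sum, ← Finset.mul_sum, ← hN]
    have h6 : ∑ b, Act ((x i : Perm (Fin n))⁻¹) u b ^ 2 = N := by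
      have := ip_Act_Act ((x i : Perm (Fin n))⁻¹) u u
      rw [hNdef, ← this]
      unfold ip
      exact Finset.sum_congr rfl fun a _ => by ring
    rw [h6]
    linarith
  have hsum : ε' * N < ∑ b, |u (b.trans (((x i : Perm (Fin n))⁻¹ : Perm (Fin n)).toEmbedding)) ^ 2
      - u b ^ 2| := by
    have h7 : ∀ b, |u (b.trans (((x i : Perm (Fin n))⁻¹ : Perm (Fin n)).toEmbedding)) ^ 2 / N
      - u b ^ 2 / N| = |u (b.trans (((x i : Perm (Fin n))⁻¹ : Perm (Fin n)).toEmbedding)) ^ 2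
      - u b ^ 2| / N := by
      intro b
      rw [← sub_div, abs_div, abs_of_pos hNp]
    simp only [h7] at hi
    rw [← Finset.sum_div, lt_div_iff₀ hNp] at hi
    exact hi
  have hE : ε' ^ 2 * N / 4 ≤ DF (x i : Perm (Fin n)) u := by
    have h8 : (ε' * N) ^ 2 ≤ DF (x i : Perm (Fin n)) u * (4 * N) :=
      (pow_le_pow_left₀ (by positivity) hsum.le 2).trans hCS
    have h9 : ε' ^ 2 * N * N ≤ DF (x i : Perm (Fin n)) u * 4 * N := by nlinarith
    have h10 := le_of_mul_le_mul_right h9 hNp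
    linarith
  refine (ip_Lz_Lz_le hk x u).trans ((ip_Lz_le hk x u i).trans ?_)
  have h11 : ε' ^ 2 * N / 4 / (4 * k) ≤ DF (x i : Perm (Fin n)) u / (4 * k) := by
    gcongr
  have h12 : ε' ^ 2 / (16 * k) * N = ε' ^ 2 * N / 4 / (4 * k) := by
    field_simp
    ring
  rw [← hNdef, sub_mul, one_mul, h12]
  linarith

theorem dD : S_D := by
  intro n k f T x ε' Λ hk hε hε1 hΛ hq hT a
  have hk0 : (0 : ℝ) < k := by exact_mod_cast hk
  have hk1 : (1 : ℝ) ≤ k := by exact_mod_cast hk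
  set u : ℕ → Fn n f := fun t => (Lz x ^ t) (Pi.single a 1) with hu
  have hu0 : u 0 = Pi.single a 1 := by simp [hu]
  have husucc : ∀ t, u (t + 1) = Lz x (u t) := by
    intro t
    simp only [hu, pow_succ', Module.End.mul_apply]
  have hnn : ∀ t b, 0 ≤ u t b := by
    intro t
    induction t with
    | zero =>
      intro b
      rw [hu0]
      by_cases hb : b = a
      · subst hb; simp
      · simp [hb]
    | succ t ih => rw [husucc]; exact Lz_nonneg x _ ih
  have hs1 : ∀ t, ∑ b, u t b = 1 := by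
    intro t
    induction t with
    | zero => rw [hu0]; simp
    | succ t ih => rw [husucc, sum_Lz hk, ih]
  have hprT : ∀ t, ip (u t) (u t) = prT (lazyLaw x (2 * t)) a a := by
    intro t
    have hsym : ∀ (m : ℕ) (φ ψ : Fn n f), ip ((Lz x ^ m) φ) ψ = ip φ ((Lz x ^ m) ψ) := by
      intro m
      induction m with
      | zero => intro φ ψ; simp
      | succ m ih =>
        intro φ ψ
        rw [pow_succ', Module.End.mul_apply, Lz_symm, ih, ← Module.End.mul_apply, ← pow_succ, pow_succ']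
    have h1 : ip (u t) (u t) = (Lz x ^ (2 * t)) (Pi.single a 1) a := by
      simp only [hu]
      rw [hsym, ← Module.End.mul_apply, ← pow_add, ← two_mul]
      unfold ip
      rw [Finset.sum_eq_single a]
      · simp
      · intro b _ hb
        simp [hb]
      · intro h
        exact absurd (Finset.mem_univ a) h
    rw [h1, ← (Pool.Agent.Helper60.AK.LZ.lz n k f (2 * t) x hk).1, Avg_apply]
    unfold prT
    rw [Finset.sum_filter]
    refine Finset.sum_congr rfl fun g _ => ?_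
    by_cases hg : ∀ i, g (a i) = a i
    · rw [if_pos hg]
      have : a.trans g.toEmbedding = a := by
        ext i
        simp [hg i]
      rw [this]
      simp
    · rw [if_neg hg]
      have : a.trans g.toEmbedding ≠ a := by
        intro h
        apply hg
        intro i
        have := congrArg (fun e => e i) h
        simpa using this
      rw [Pi.single_apply, if_neg this, mul_zero]
  set c : ℝ := ε' ^ 2 / (16 * k) with hc
  have hc0 : 0 ≤ c := by positivity
  have hc1 : c ≤ 1 := by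
    rw [hc, div_le_one (by positivity)]
    nlinarith
  have hmono : ∀ t, ip (u (t + 1)) (u (t + 1)) ≤ ip (u t) (u t) := by
    intro t
    rw [husucc]
    refine (ip_Lz_Lz_le hk x (u t)).trans ?_
    rw [ip_Lz]
    have := ip_Wk_le hk x (u t)
    linarith
  have hind : ∀ t, ip (u t) (u t) ≤ Real.exp (-Λ) ∨ ip (u t) (u t) ≤ (1 - c) ^ t := by
    intro t
    induction t with
    | zero =>
      right
      rw [hu0, pow_zero]
      unfold ip
      rw [Finset.sum_eq_single a]
      · simp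
      · intro b _ hb
        simp [hb]
      · intro h
        exact absurd (Finset.mem_univ a) h
    | succ t ih =>
      rcases ih with h | h
      · left
        exact (hmono t).trans h
      · by_cases hb : Real.exp (-Λ) < ip (u t) (u t)
        · right
          have := step hk x ε' Λ hε hq (u t) (hnn t) (hs1 t) hb
          rw [husucc, pow_succ']
          exact this.trans (mul_le_mul_of_nonneg_left h (by linarith))
        · left
          push Not at hb
          exact (hmono t).trans hb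
  rw [← hprT T]
  rcases hind T with h | h
  · exact h
  · refine h.trans ?_
    have h1 : 1 - c ≤ Real.exp (-c) := by
      have := Real.add_one_le_exp (-c)
      linarith
    have h2 : (1 - c) ^ T ≤ Real.exp (-c) ^ T := pow_le_pow_left₀ (by linarith) h1 T
    refine h2.trans ?_
    rw [← Real.exp_nat_mul]
    apply Real.exp_le_exp.2
    have h3 : Λ ≤ T * c := by
      rw [hc]
      rw [← mul_div_assoc, le_div_iff₀ (by positivity)]
      nlinarith
    linarith

end Pool.Agent.Helper22.NX
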